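import Mathlib

/-! # Compensation functions: definitions -/

open Topology Filter Set

namespace Q193.CF

variable {K : Type*} [TopologicalSpace K]

/-- For a functional `μ ∈ C(K)^* = M(K)` and `0 ≤ g ∈ C(K)`, the value `μ⁺(g)` of the positive part
of `μ`, by the Riesz formula `μ⁺(g) = sup {μ(h) : 0 ≤ h ≤ g}`. -/
noncomputable def posPart (μ : WeakDual ℝ C(K, ℝ)) (g : C(K, ℝ)) : ℝ :=
  sSup {r : ℝ | ∃ h : C(K, ℝ), 0 ≤ h ∧ h ≤ g ∧ μ h = r}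

/-- `ν` is a compensation of `μ`: either `μ(K) > 0`, `0 ≤ ν ≤ μ⁺` and `ν(K) = μ(K)`;
or `μ(K) ≤ 0` and `ν = 0`. -/
def IsCompensation (μ ν : WeakDual ℝ C(K, ℝ)) : Prop :=
  (0 < μ 1 ∧ (∀ g : C(K, ℝ), 0 ≤ g → 0 ≤ ν g ∧ ν g ≤ posPart μ g) ∧ ν 1 = μ 1) ∨
    (μ 1 ≤ 0 ∧ ν = 0)

/-- `ξ` is an `S`-compensation function: weak-* to weak-* continuous on `S`, and `ξ(μ)` is a
compensation of `μ` for every `μ ∈ S`. -/
def IsCompensationFunctionOn (S : Set (WeakDual ℝ C(K, ℝ)))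
    (ξ : WeakDual ℝ C(K, ℝ) → WeakDual ℝ C(K, ℝ)) : Prop :=
  ContinuousOn ξ S ∧ ∀ μ ∈ S, IsCompensation μ (ξ μ)

/-- The closed unit ball `B_{M(K)}` of the dual of `C(K)`. -/
def unitBall (K : Type*) [TopologicalSpace K] [CompactSpace K] :
    Set (WeakDual ℝ C(K, ℝ)) :=
  {μ | ‖WeakDual.toStrongDual μ‖ ≤ 1}

end Q193.CF
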