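import Pool.Agent.Q193.CF.Tree

/-! # A compact metrizable space admits a compensation function -/

open Topology Filter Set

namespace Q193.CF

/-- The data of a tree of partitions of unity with mesh going to zero. -/
structure Tree (K : Type*) [MetricSpace K] where
  T : ℕ → Finset K
  q : ℕ → K → C(K, ℝ)
  q_nonneg : ∀ n x t, 0 ≤ q n x t
  q_sum : ∀ n t, ∑ x ∈ T n, q n x t = 1
  q_mesh : ∀ n x s t, q n x s ≠ 0 → q n x t ≠ 0 → dist s t ≤ 1 / ((n : ℝ) + 1)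

lemma exists_tree (K : Type*) [MetricSpace K] [CompactSpace K] : Nonempty (Tree K) := by
  have h : ∀ n : ℕ, ∃ (T : Finset K) (q : K → C(K, ℝ)), (∀ x t, 0 ≤ q x t) ∧
      (∀ t, ∑ x ∈ T, q x t = 1) ∧ ∀ x s t, q x s ≠ 0 → q x t ≠ 0 →
        dist s t ≤ 1 / ((n : ℝ) + 1) := fun n => pou Nat.one_div_pos_of_nat
  choose T q h1 h2 h3 using h
  exact ⟨⟨T, q, h1, h2, h3⟩⟩

namespace Tree

variable {K : Type*} [MetricSpace K] [CompactSpace K] (𝒯 : Tree K)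

/-- The functions of the tree. -/
def p : List K → C(K, ℝ)
  | [] => 1
  | x :: σ => 𝒯.q σ.length x * p σ

lemma p_nonneg (σ : List K) (t : K) : 0 ≤ 𝒯.p σ t := by
  induction σ with
  | nil => exact zero_le_one
  | cons x σ ih => exact mul_nonneg (𝒯.q_nonneg _ _ _) ih

lemma p_sum (σ : List K) (t : K) : ∑ x ∈ 𝒯.T σ.length, 𝒯.p (x :: σ) t = 𝒯.p σ t := by
  show ∑ x ∈ 𝒯.T σ.length, 𝒯.q σ.length x t * 𝒯.p σ t = 𝒯.p σ t
  rw [← Finset.sum_mul, 𝒯.q_sum, one_mul]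

lemma p_sum' (σ : List K) : ∑ x ∈ 𝒯.T σ.length, 𝒯.p (x :: σ) = 𝒯.p σ := by
  ext t
  rw [ContinuousMap.sum_apply]
  exact 𝒯.p_sum σ t

lemma p_supp {x : K} {σ : List K} {t : K} (h : 𝒯.p (x :: σ) t ≠ 0) : 𝒯.p σ t ≠ 0 := by
  intro h0
  apply h
  show 𝒯.q σ.length x t * 𝒯.p σ t = 0
  rw [h0, mul_zero]

lemma p_supp' {x : K} {σ : List K} {t : K} (h : 𝒯.p (x :: σ) t ≠ 0) :
    𝒯.q σ.length x t ≠ 0 := by
  intro h0
  apply h
  show 𝒯.q σ.length x t * 𝒯.p σ t = 0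
  rw [h0, zero_mul]

lemma mesh (g : C(K, ℝ)) {ε : ℝ} (hε : 0 < ε) :
    ∃ n : ℕ, ∀ σ : List K, σ.length = n → ∀ s t, 𝒯.p σ s ≠ 0 → 𝒯.p σ t ≠ 0 →
      |g s - g t| ≤ ε := by
  have hu : UniformContinuous g := CompactSpace.uniformContinuous_of_continuous g.continuous
  obtain ⟨δ, hδ, h⟩ := Metric.uniformContinuous_iff.mp hu ε hε
  obtain ⟨n, hn⟩ := exists_nat_one_div_lt hδ
  refine ⟨n + 1, ?_⟩
  intro σ hσ s t hs ht
  match σ, hσ with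
  | x :: σ, hσ =>
    have hlen : σ.length = n := by simpa using hσ
    have h1 := 𝒯.q_mesh _ x s t (𝒯.p_supp' hs) (𝒯.p_supp' ht)
    rw [hlen] at h1
    have h2 := h (lt_of_le_of_lt h1 hn)
    rw [Real.dist_eq] at h2
    exact h2.le

lemma Sm_p (n : ℕ) (t : K) : Sm 𝒯.T n (fun σ => 𝒯.p σ t) = 1 := by
  induction n with
  | zero => rfl
  | succ n ih =>
    rw [← ih]
    show Sm 𝒯.T n _ = _
    refine Sm_congr _ _ _ _ fun σ hσ => ?_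
    rw [← hσ]
    exact 𝒯.p_sum σ t

open Classical in
/-- The weights. -/
noncomputable def w (μ : WeakDual ℝ C(K, ℝ)) : List K → ℝ
  | [] => max (μ 1) 0
  | x :: σ => if x ∈ 𝒯.T σ.length then w μ σ * max (μ (𝒯.p (x :: σ))) 0 /
      ∑ y ∈ 𝒯.T σ.length, max (μ (𝒯.p (y :: σ))) 0 else 0

lemma w_cons_mem (μ : WeakDual ℝ C(K, ℝ)) {x : K} {σ : List K} (h : x ∈ 𝒯.T σ.length) :
    𝒯.w μ (x :: σ) = 𝒯.w μ σ * max (μ (𝒯.p (x :: σ))) 0 /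
      ∑ y ∈ 𝒯.T σ.length, max (μ (𝒯.p (y :: σ))) 0 := if_pos h

lemma w_cons_not_mem (μ : WeakDual ℝ C(K, ℝ)) {x : K} {σ : List K}
    (h : x ∉ 𝒯.T σ.length) : 𝒯.w μ (x :: σ) = 0 := if_neg h

lemma w_nonneg (μ : WeakDual ℝ C(K, ℝ)) (σ : List K) : 0 ≤ 𝒯.w μ σ := by
  induction σ with
  | nil => exact le_max_right _ _
  | cons x σ ih =>
    by_cases hx : x ∈ 𝒯.T σ.length
    · rw [𝒯.w_cons_mem μ hx]
      exact div_nonneg (mul_nonneg ih (le_max_right _ _))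
        (Finset.sum_nonneg fun _ _ => le_max_right _ _)
    · rw [𝒯.w_cons_not_mem μ hx]

lemma posp_le (μ : WeakDual ℝ C(K, ℝ)) (σ : List K) :
    max (μ (𝒯.p σ)) 0 ≤ ∑ y ∈ 𝒯.T σ.length, max (μ (𝒯.p (y :: σ))) 0 := by
  refine max_le ?_ (Finset.sum_nonneg fun _ _ => le_max_right _ _)
  rw [← 𝒯.p_sum' σ, map_sum]
  exact Finset.sum_le_sum fun _ _ => le_max_left _ _

lemma w_le (μ : WeakDual ℝ C(K, ℝ)) (σ : List K) : 𝒯.w μ σ ≤ max (μ (𝒯.p σ)) 0 := by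
  induction σ with
  | nil => exact le_rfl
  | cons x σ ih =>
    by_cases hx : x ∈ 𝒯.T σ.length
    swap
    · rw [𝒯.w_cons_not_mem μ hx]; exact le_max_right _ _
    have h1 := ih.trans (𝒯.posp_le μ σ)
    rw [𝒯.w_cons_mem μ hx]
    have hs : 0 ≤ ∑ y ∈ 𝒯.T σ.length, max (μ (𝒯.p (y :: σ))) 0 :=
      Finset.sum_nonneg fun _ _ => le_max_right _ _
    rcases hs.eq_or_lt with h0 | hpos
    · rw [← h0, div_zero]; exact le_max_right _ _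
    · rw [div_le_iff₀ hpos, mul_comm]
      exact mul_le_mul_of_nonneg_left h1 (le_max_right _ _)

lemma w_sum (μ : WeakDual ℝ C(K, ℝ)) (σ : List K) :
    ∑ x ∈ 𝒯.T σ.length, 𝒯.w μ (x :: σ) = 𝒯.w μ σ := by
  rw [Finset.sum_congr rfl fun x hx => 𝒯.w_cons_mem μ hx]
  rw [← Finset.sum_div, ← Finset.mul_sum]
  have hs : 0 ≤ ∑ y ∈ 𝒯.T σ.length, max (μ (𝒯.p (y :: σ))) 0 :=
    Finset.sum_nonneg fun _ _ => le_max_right _ _
  rcases hs.eq_or_lt with h0 | hpos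
  · have h1 := (𝒯.w_le μ σ).trans (𝒯.posp_le μ σ)
    rw [← h0] at h1 ⊢
    have := le_antisymm h1 (𝒯.w_nonneg μ σ)
    rw [this]; simp
  · exact mul_div_cancel_right₀ _ hpos.ne'

lemma Sm_w (μ : WeakDual ℝ C(K, ℝ)) (n : ℕ) : Sm 𝒯.T n (𝒯.w μ) = max (μ 1) 0 := by
  induction n with
  | zero => rfl
  | succ n ih =>
    rw [← ih]
    show Sm 𝒯.T n _ = _
    refine Sm_congr _ _ _ _ fun σ hσ => ?_
    rw [← hσ]
    exact 𝒯.w_sum μ σ

lemma w_eq_zero (μ : WeakDual ℝ C(K, ℝ)) {σ : List K} (h : ∀ t, 𝒯.p σ t = 0) :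
    𝒯.w μ σ = 0 := by
  have h0 : 𝒯.p σ = 0 := by ext t; exact h t
  have h1 := 𝒯.w_le μ σ
  rw [h0, map_zero, max_self] at h1
  exact le_antisymm h1 (𝒯.w_nonneg μ σ)

/-- A continuous function with a removable singularity. -/
lemma cont_mul_div {X : Type*} [TopologicalSpace X] {f a s : X → ℝ} (hf : Continuous f)
    (ha : Continuous a) (hs : Continuous s) (hf0 : ∀ x, 0 ≤ f x) (ha0 : ∀ x, 0 ≤ a x)
    (has : ∀ x, a x ≤ s x) (hfs : ∀ x, f x ≤ s x) : Continuous fun x => f x * a x / s x := by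
  rw [continuous_iff_continuousAt]
  intro x
  by_cases hx : s x = 0
  · have hfx : f x = 0 := le_antisymm (by have := hfs x; rwa [hx] at this) (hf0 x)
    have hle : ∀ y, f y * a y / s y ≤ f y := by
      intro y
      have hs0 : 0 ≤ s y := (ha0 y).trans (has y)
      rcases hs0.eq_or_lt with h | h
      · rw [← h, div_zero]; exact hf0 y
      · rw [div_le_iff₀ h]; exact mul_le_mul_of_nonneg_left (has y) (hf0 y)
    have hge : ∀ y, 0 ≤ f y * a y / s y := fun y =>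
      div_nonneg (mul_nonneg (hf0 y) (ha0 y)) ((ha0 y).trans (has y))
    have hval : f x * a x / s x = 0 := by rw [hx, div_zero]
    show Tendsto _ (𝓝 x) (𝓝 (f x * a x / s x))
    rw [hval]
    refine tendsto_of_tendsto_of_tendsto_of_le_of_le tendsto_const_nhds ?_ hge hle
    have := hf.tendsto x
    rwa [hfx] at this
  · exact (hf.continuousAt.mul ha.continuousAt).div hs.continuousAt hx

lemma w_continuous (σ : List K) : Continuous fun μ : WeakDual ℝ C(K, ℝ) => 𝒯.w μ σ := by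
  induction σ with
  | nil => exact (WeakDual.eval_continuous (1 : C(K, ℝ))).max continuous_const
  | cons x σ ih =>
    have hc : ∀ y : K, Continuous fun μ : WeakDual ℝ C(K, ℝ) => max (μ (𝒯.p (y :: σ))) 0 :=
      fun y => (WeakDual.eval_continuous _).max continuous_const
    by_cases hx : x ∈ 𝒯.T σ.length
    · simp only [𝒯.w_cons_mem _ hx]
      refine cont_mul_div ih (hc x) (continuous_finsetSum _ fun y _ => hc y)
        (fun μ => 𝒯.w_nonneg μ σ) (fun μ => le_max_right _ _) (fun μ => ?_)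
        (fun μ => (𝒯.w_le μ σ).trans (𝒯.posp_le μ σ))
      exact Finset.single_le_sum (f := fun y => max (μ (𝒯.p (y :: σ))) 0)
        (fun _ _ => le_max_right _ _) hx
    · simp only [𝒯.w_cons_not_mem _ hx]
      exact continuous_const

open Classical in
/-- The value of `g` at some point of the support of `p σ`. -/
noncomputable def val (g : C(K, ℝ)) (σ : List K) : ℝ :=
  if h : ∃ t, 𝒯.p σ t ≠ 0 then g h.choose else 0

lemma val_pos (g : C(K, ℝ)) {σ : List K} (h : ∃ t, 𝒯.p σ t ≠ 0) :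
    ∃ t, 𝒯.p σ t ≠ 0 ∧ ∀ g : C(K, ℝ), 𝒯.val g σ = g t :=
  ⟨h.choose, h.choose_spec, fun _ => dif_pos h⟩

lemma val_add (g h : C(K, ℝ)) (σ : List K) : 𝒯.val (g + h) σ = 𝒯.val g σ + 𝒯.val h σ := by
  by_cases hσ : ∃ t, 𝒯.p σ t ≠ 0
  · obtain ⟨t, -, ht⟩ := 𝒯.val_pos g hσ
    rw [ht, ht, ht]; rfl
  · rw [val, val, val, dif_neg hσ, dif_neg hσ, dif_neg hσ, add_zero]

lemma val_smul (c : ℝ) (g : C(K, ℝ)) (σ : List K) : 𝒯.val (c • g) σ = c * 𝒯.val g σ := by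
  by_cases hσ : ∃ t, 𝒯.p σ t ≠ 0
  · obtain ⟨t, -, ht⟩ := 𝒯.val_pos g hσ
    rw [ht, ht]; rfl
  · rw [val, val, dif_neg hσ, dif_neg hσ, mul_zero]

lemma val_nonneg {g : C(K, ℝ)} (hg : 0 ≤ g) (σ : List K) : 0 ≤ 𝒯.val g σ := by
  by_cases hσ : ∃ t, 𝒯.p σ t ≠ 0
  · obtain ⟨t, -, ht⟩ := 𝒯.val_pos g hσ
    rw [ht]; exact hg t
  · rw [val, dif_neg hσ]

lemma val_abs (g : C(K, ℝ)) (σ : List K) : |𝒯.val g σ| ≤ ‖g‖ := by
  by_cases hσ : ∃ t, 𝒯.p σ t ≠ 0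
  · obtain ⟨t, -, ht⟩ := 𝒯.val_pos g hσ
    rw [ht]; exact g.norm_coe_le_norm t
  · rw [val, dif_neg hσ, abs_zero]; exact norm_nonneg _

/-- Approximants. -/
noncomputable def Lam (n : ℕ) (μ : WeakDual ℝ C(K, ℝ)) (g : C(K, ℝ)) : ℝ :=
  Sm 𝒯.T n (fun σ => 𝒯.w μ σ * 𝒯.val g σ)

/-- Partial sums below a word. -/
noncomputable def B (μ : WeakDual ℝ C(K, ℝ)) (g : C(K, ℝ)) : ℕ → List K → ℝ
  | 0, σ => 𝒯.w μ σ * 𝒯.val g σ
  | m + 1, σ => ∑ x ∈ 𝒯.T σ.length, B μ g m (x :: σ)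

lemma Sm_B (μ : WeakDual ℝ C(K, ℝ)) (g : C(K, ℝ)) (m n : ℕ) :
    𝒯.Lam (n + m) μ g = Sm 𝒯.T n (𝒯.B μ g m) := by
  induction m generalizing n with
  | zero => rfl
  | succ m ih =>
    have h := ih (n + 1)
    rw [show n + 1 + m = n + (m + 1) by ring] at h
    rw [h]
    show Sm 𝒯.T n _ = _
    refine Sm_congr _ _ _ _ fun σ hσ => ?_
    rw [← hσ]; rfl

lemma B_bound (μ : WeakDual ℝ C(K, ℝ)) (g : C(K, ℝ)) (c ε : ℝ) (m : ℕ) (σ : List K)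
    (h : ∀ t, 𝒯.p σ t ≠ 0 → |g t - c| ≤ ε) :
    |𝒯.B μ g m σ - 𝒯.w μ σ * c| ≤ ε * 𝒯.w μ σ := by
  induction m generalizing σ with
  | zero =>
    show |𝒯.w μ σ * 𝒯.val g σ - 𝒯.w μ σ * c| ≤ ε * 𝒯.w μ σ
    by_cases hσ : ∃ t, 𝒯.p σ t ≠ 0
    · obtain ⟨t, ht0, ht⟩ := 𝒯.val_pos g hσ
      rw [ht, ← mul_sub, abs_mul, abs_of_nonneg (𝒯.w_nonneg μ σ), mul_comm ε]
      exact mul_le_mul_of_nonneg_left (h t ht0) (𝒯.w_nonneg μ σ)
    · push Not at hσ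
      rw [𝒯.w_eq_zero μ hσ]; simp
  | succ m ih =>
    have h1 : 𝒯.B μ g (m + 1) σ - 𝒯.w μ σ * c =
        ∑ x ∈ 𝒯.T σ.length, (𝒯.B μ g m (x :: σ) - 𝒯.w μ (x :: σ) * c) := by
      rw [Finset.sum_sub_distrib, ← Finset.sum_mul, 𝒯.w_sum]; rfl
    rw [h1]
    refine (Finset.abs_sum_le_sum_abs _ _).trans ?_
    have h2 : ε * 𝒯.w μ σ = ∑ x ∈ 𝒯.T σ.length, ε * 𝒯.w μ (x :: σ) := by
      rw [← Finset.mul_sum, 𝒯.w_sum]
    rw [h2]
    exact Finset.sum_le_sum fun x _ => ih (x :: σ) fun t ht => h t (𝒯.p_supp ht)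

/-- Words of length `n` have supports on which `g` oscillates by at most `ε`. -/
def Fine (g : C(K, ℝ)) (ε : ℝ) (n : ℕ) : Prop :=
  ∀ σ : List K, σ.length = n → ∀ s t, 𝒯.p σ s ≠ 0 → 𝒯.p σ t ≠ 0 → |g s - g t| ≤ ε

lemma Lam_close {g : C(K, ℝ)} {ε : ℝ} {n : ℕ} (hn : 𝒯.Fine g ε n) (μ : WeakDual ℝ C(K, ℝ))
    (m : ℕ) : |𝒯.Lam (n + m) μ g - 𝒯.Lam n μ g| ≤ ε * max (μ 1) 0 := by
  rw [𝒯.Sm_B, Lam, ← Sm_sub, ← 𝒯.Sm_w μ n, ← Sm_const_mul]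
  refine Sm_abs_le _ _ _ _ fun σ hσ => ?_
  refine 𝒯.B_bound μ g (𝒯.val g σ) ε m σ fun t ht => ?_
  obtain ⟨s, hs0, hs⟩ := 𝒯.val_pos g ⟨t, ht⟩
  rw [hs]
  exact hn σ hσ t s ht hs0

lemma Lam_cauchy (μ : WeakDual ℝ C(K, ℝ)) (g : C(K, ℝ)) : CauchySeq fun n => 𝒯.Lam n μ g := by
  rw [Metric.cauchySeq_iff']
  intro ε hε
  have hM : 0 ≤ max (μ 1) 0 := le_max_right _ _
  have hM1 : 0 < max (μ 1) 0 + 1 := by linarith
  obtain ⟨n, hn⟩ := 𝒯.mesh g (ε := ε / 2 / (max (μ 1) 0 + 1)) (by positivity)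
  refine ⟨n, fun m hm => ?_⟩
  obtain ⟨k, rfl⟩ := Nat.exists_eq_add_of_le hm
  rw [Real.dist_eq]
  refine lt_of_le_of_lt (𝒯.Lam_close hn μ k) ?_
  have : ε / 2 / (max (μ 1) 0 + 1) * max (μ 1) 0 ≤ ε / 2 := by
    rw [div_mul_eq_mul_div, div_le_iff₀ hM1]
    exact mul_le_mul_of_nonneg_left (by linarith) (by linarith)
  linarith

lemma exists_lim (μ : WeakDual ℝ C(K, ℝ)) (g : C(K, ℝ)) :
    ∃ l, Tendsto (fun n => 𝒯.Lam n μ g) atTop (𝓝 l) :=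
  cauchySeq_tendsto_of_complete (𝒯.Lam_cauchy μ g)

/-- The limit. -/
noncomputable def lim (μ : WeakDual ℝ C(K, ℝ)) (g : C(K, ℝ)) : ℝ := (𝒯.exists_lim μ g).choose

lemma tendsto_lim (μ : WeakDual ℝ C(K, ℝ)) (g : C(K, ℝ)) :
    Tendsto (fun n => 𝒯.Lam n μ g) atTop (𝓝 (𝒯.lim μ g)) := (𝒯.exists_lim μ g).choose_spec

lemma lim_close {g : C(K, ℝ)} {ε : ℝ} {n : ℕ} (hn : 𝒯.Fine g ε n) (μ : WeakDual ℝ C(K, ℝ)) :
    |𝒯.lim μ g - 𝒯.Lam n μ g| ≤ ε * max (μ 1) 0 := by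
  have h1 : Tendsto (fun m => |𝒯.Lam (n + m) μ g - 𝒯.Lam n μ g|) atTop
      (𝓝 |𝒯.lim μ g - 𝒯.Lam n μ g|) := by
    have h2 : Tendsto (fun m => 𝒯.Lam (n + m) μ g) atTop (𝓝 (𝒯.lim μ g)) := by
      have := (tendsto_add_atTop_iff_nat n).mpr (𝒯.tendsto_lim μ g)
      simpa [add_comm] using this
    exact (h2.sub tendsto_const_nhds).abs
  exact le_of_tendsto h1 (Eventually.of_forall fun m => 𝒯.Lam_close hn μ m)

lemma Lam_add (n : ℕ) (μ : WeakDual ℝ C(K, ℝ)) (g h : C(K, ℝ)) :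
    𝒯.Lam n μ (g + h) = 𝒯.Lam n μ g + 𝒯.Lam n μ h := by
  rw [Lam, Lam, Lam, ← Sm_add]
  exact Sm_congr _ _ _ _ fun σ _ => by rw [𝒯.val_add]; ring

lemma Lam_smul (n : ℕ) (μ : WeakDual ℝ C(K, ℝ)) (c : ℝ) (g : C(K, ℝ)) :
    𝒯.Lam n μ (c • g) = c * 𝒯.Lam n μ g := by
  rw [Lam, Lam, ← Sm_const_mul]
  exact Sm_congr _ _ _ _ fun σ _ => by rw [𝒯.val_smul]; ring

lemma Lam_abs (n : ℕ) (μ : WeakDual ℝ C(K, ℝ)) (g : C(K, ℝ)) :
    |𝒯.Lam n μ g| ≤ max (μ 1) 0 * ‖g‖ := by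
  rw [← 𝒯.Sm_w μ n, mul_comm, ← Sm_const_mul]
  refine Sm_abs_le _ _ _ _ fun σ _ => ?_
  rw [abs_mul, abs_of_nonneg (𝒯.w_nonneg μ σ), mul_comm]
  exact mul_le_mul_of_nonneg_right (𝒯.val_abs g σ) (𝒯.w_nonneg μ σ)

lemma Lam_nonneg (n : ℕ) (μ : WeakDual ℝ C(K, ℝ)) {g : C(K, ℝ)} (hg : 0 ≤ g) :
    0 ≤ 𝒯.Lam n μ g := by
  rw [← Sm_zero' 𝒯.T n]
  exact Sm_le _ _ _ _ fun σ _ => mul_nonneg (𝒯.w_nonneg μ σ) (𝒯.val_nonneg hg σ)

lemma Lam_one (n : ℕ) (μ : WeakDual ℝ C(K, ℝ)) : 𝒯.Lam n μ 1 = max (μ 1) 0 := by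
  rw [← 𝒯.Sm_w μ n]
  refine Sm_congr _ _ _ _ fun σ _ => ?_
  by_cases hσ : ∃ t, 𝒯.p σ t ≠ 0
  · obtain ⟨t, -, ht⟩ := 𝒯.val_pos 1 hσ
    rw [ht, ContinuousMap.one_apply, mul_one]
  · push Not at hσ
    rw [𝒯.w_eq_zero μ hσ, zero_mul]

/-- The compensation. -/
noncomputable def comp (μ : WeakDual ℝ C(K, ℝ)) : WeakDual ℝ C(K, ℝ) :=
  StrongDual.toWeakDual (LinearMap.mkContinuous
    { toFun := 𝒯.lim μ
      map_add' := fun g h => tendsto_nhds_unique (𝒯.tendsto_lim μ (g + h)) (by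
        simp only [𝒯.Lam_add]
        exact (𝒯.tendsto_lim μ g).add (𝒯.tendsto_lim μ h))
      map_smul' := fun c g => tendsto_nhds_unique (𝒯.tendsto_lim μ (c • g)) (by
        simp only [𝒯.Lam_smul]
        exact (𝒯.tendsto_lim μ g).const_mul c) } (max (μ 1) 0)
    (fun g => le_of_tendsto (𝒯.tendsto_lim μ g).abs
      (Eventually.of_forall fun n => 𝒯.Lam_abs n μ g)))

lemma comp_apply (μ : WeakDual ℝ C(K, ℝ)) (g : C(K, ℝ)) : 𝒯.comp μ g = 𝒯.lim μ g := rfl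

lemma Lam_continuous (n : ℕ) (g : C(K, ℝ)) :
    Continuous fun μ : WeakDual ℝ C(K, ℝ) => 𝒯.Lam n μ g := by
  have key : ∀ (n : ℕ) (F : List K → WeakDual ℝ C(K, ℝ) → ℝ), (∀ σ, Continuous (F σ)) →
      Continuous fun μ => Sm 𝒯.T n (fun σ => F σ μ) := by
    intro n
    induction n with
    | zero => intro F hF; exact hF []
    | succ n ih =>
      intro F hF
      exact ih (fun σ μ => ∑ x ∈ 𝒯.T n, F (x :: σ) μ)
        fun σ => continuous_finsetSum _ fun x _ => hF _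
  exact key n (fun σ μ => 𝒯.w μ σ * 𝒯.val g σ) fun σ => (𝒯.w_continuous σ).mul continuous_const

lemma comp_continuous : Continuous 𝒯.comp := by
  refine WeakDual.continuous_of_continuous_eval fun g => ?_
  show Continuous fun μ => 𝒯.lim μ g
  rw [continuous_iff_continuousAt]
  intro μ₀
  show Tendsto _ _ _
  rw [Metric.tendsto_nhds]
  intro ε hε
  set C : ℝ := max (μ₀ 1) 0 + 1 with hC
  have hC0 : 0 < C := by have : 0 ≤ max (μ₀ 1) 0 := le_max_right _ _; linarith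
  obtain ⟨n, hn⟩ := 𝒯.mesh g (ε := ε / 4 / C) (by positivity)
  have h1 : ∀ᶠ μ in 𝓝 μ₀, max (μ 1) 0 < C := by
    have hc : Continuous fun μ : WeakDual ℝ C(K, ℝ) => max (μ (1 : C(K, ℝ))) 0 :=
      (WeakDual.eval_continuous _).max continuous_const
    exact hc.continuousAt.eventually_lt continuousAt_const (by rw [hC]; linarith)
  have h2 : ∀ᶠ μ in 𝓝 μ₀, dist (𝒯.Lam n μ g) (𝒯.Lam n μ₀ g) < ε / 4 :=
    Metric.tendsto_nhds.mp ((𝒯.Lam_continuous n g).tendsto μ₀) _ (by linarith)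
  filter_upwards [h1, h2] with μ hμ1 hμ2
  have h3 := 𝒯.lim_close hn μ
  have h4 := 𝒯.lim_close hn μ₀
  have hb : ∀ M : ℝ, M ≤ C → ε / 4 / C * M ≤ ε / 4 := by
    intro M hM
    have := mul_le_mul_of_nonneg_left hM (show 0 ≤ ε / 4 / C by positivity)
    rwa [div_mul_cancel₀ _ hC0.ne'] at this
  have h5 := hb _ hμ1.le
  have h6 := hb (max (μ₀ 1) 0) (by rw [hC]; linarith)
  rw [Real.dist_eq] at hμ2 ⊢
  rw [abs_le] at h3 h4
  rw [abs_lt] at hμ2 ⊢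
  constructor <;> linarith [h3.1, h3.2, h4.1, h4.2, hμ2.1, hμ2.2]

lemma posPart_bdd (μ : WeakDual ℝ C(K, ℝ)) (g : C(K, ℝ)) :
    BddAbove {r : ℝ | ∃ h : C(K, ℝ), 0 ≤ h ∧ h ≤ g ∧ μ h = r} := by
  refine ⟨‖WeakDual.toStrongDual μ‖ * ‖g‖, ?_⟩
  rintro r ⟨h, h0, hg, rfl⟩
  have h1 : ‖h‖ ≤ ‖g‖ := by
    rw [ContinuousMap.norm_le _ (norm_nonneg _)]
    intro x
    have h2 : h x ≤ g x := hg x
    have h3 : 0 ≤ h x := h0 x
    have h4 := g.norm_coe_le_norm x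
    rw [Real.norm_eq_abs] at h4 ⊢
    rw [abs_of_nonneg h3]
    exact h2.trans ((le_abs_self _).trans h4)
  have h2 := (WeakDual.toStrongDual μ).le_opNorm h
  have h3 : (WeakDual.toStrongDual μ) h = μ h := rfl
  rw [h3] at h2
  exact (le_abs_self _).trans (h2.trans (mul_le_mul_of_nonneg_left h1 (norm_nonneg _)))

lemma Lam_le_posPart (μ : WeakDual ℝ C(K, ℝ)) {g : C(K, ℝ)} (hg : 0 ≤ g) {ε : ℝ} (hε : 0 ≤ ε)
    {n : ℕ} (hn : 𝒯.Fine g ε n) : 𝒯.Lam n μ g ≤ posPart μ g + ε * max (μ 1) 0 := by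
  classical
  set F : List K → C(K, ℝ) := fun σ =>
    if 0 < μ (𝒯.p σ) then (max (𝒯.val g σ - ε) 0) • 𝒯.p σ else 0 with hF
  set h : C(K, ℝ) := Sm 𝒯.T n F with hh
  have hht : ∀ t, h t = Sm 𝒯.T n (fun σ => F σ t) := by
    intro t
    have := Sm_map ({ toFun := fun f => f t, map_zero' := rfl, map_add' := fun _ _ => rfl } : C(K, ℝ) →+ ℝ) 𝒯.T n F
    exact this
  have hμh : μ h = Sm 𝒯.T n (fun σ => μ (F σ)) :=
    Sm_map ((WeakDual.toStrongDual μ : C(K, ℝ) →L[ℝ] ℝ) : C(K, ℝ) →+ ℝ) 𝒯.T n F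
  have h0 : 0 ≤ h := by
    intro t
    show (0 : ℝ) ≤ h t
    rw [hht, ← Sm_zero' 𝒯.T n]
    refine Sm_le _ _ _ _ fun σ _ => ?_
    simp only [hF]
    split_ifs
    · exact mul_nonneg (le_max_right _ _) (𝒯.p_nonneg σ t)
    · exact le_rfl
  have hle : h ≤ g := by
    intro t
    show h t ≤ g t
    have h1 : g t = Sm 𝒯.T n (fun σ => g t * 𝒯.p σ t) := by
      rw [Sm_const_mul, 𝒯.Sm_p, mul_one]
    rw [hht, h1]
    refine Sm_le _ _ _ _ fun σ hσ => ?_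
    have hgt : 0 ≤ g t := hg t
    simp only [hF]
    split_ifs
    · show max (𝒯.val g σ - ε) 0 * 𝒯.p σ t ≤ g t * 𝒯.p σ t
      by_cases hp : 𝒯.p σ t = 0
      · rw [hp]; simp
      · refine mul_le_mul_of_nonneg_right (max_le ?_ hgt) (𝒯.p_nonneg σ t)
        obtain ⟨s, hs0, hs⟩ := 𝒯.val_pos g ⟨t, hp⟩
        rw [hs]
        have := (abs_le.mp (hn σ hσ s t hs0 hp)).2
        linarith
    · exact mul_nonneg hgt (𝒯.p_nonneg σ t)
  have hpos : μ h ≤ posPart μ g := le_csSup (posPart_bdd μ g) ⟨h, h0, hle, rfl⟩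
  have hfin : 𝒯.Lam n μ g ≤ μ h + ε * max (μ 1) 0 := by
    rw [hμh, ← 𝒯.Sm_w μ n, ← Sm_const_mul, ← Sm_add, Lam]
    refine Sm_le _ _ _ _ fun σ _ => ?_
    have hw0 := 𝒯.w_nonneg μ σ
    have hw1 := 𝒯.w_le μ σ
    simp only [hF]
    split_ifs with hσ
    · rw [max_eq_left hσ.le] at hw1
      rw [map_smul, smul_eq_mul]
      have h1 : 𝒯.val g σ ≤ max (𝒯.val g σ - ε) 0 + ε := by
        have := le_max_left (𝒯.val g σ - ε) 0
        linarith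
      have h2 : 0 ≤ max (𝒯.val g σ - ε) 0 := le_max_right _ _
      calc 𝒯.w μ σ * 𝒯.val g σ ≤ 𝒯.w μ σ * (max (𝒯.val g σ - ε) 0 + ε) :=
            mul_le_mul_of_nonneg_left h1 hw0
        _ = 𝒯.w μ σ * max (𝒯.val g σ - ε) 0 + ε * 𝒯.w μ σ := by ring
        _ ≤ max (𝒯.val g σ - ε) 0 * μ (𝒯.p σ) + ε * 𝒯.w μ σ := by
            have := mul_le_mul_of_nonneg_right hw1 h2
            linarith
    · rw [max_eq_right (not_lt.mp hσ)] at hw1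
      have : 𝒯.w μ σ = 0 := le_antisymm hw1 hw0
      rw [this, map_zero]; simp
  linarith

lemma isCompensation (μ : WeakDual ℝ C(K, ℝ)) : IsCompensation μ (𝒯.comp μ) := by
  rcases lt_or_ge 0 (μ 1) with h | h
  · left
    refine ⟨h, fun g hg => ⟨?_, ?_⟩, ?_⟩
    · rw [comp_apply]
      exact ge_of_tendsto (𝒯.tendsto_lim μ g) (Eventually.of_forall fun n => 𝒯.Lam_nonneg n μ hg)
    · rw [comp_apply]
      refine le_of_forall_pos_le_add fun ε hε => ?_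
      obtain ⟨n, hn⟩ := 𝒯.mesh g (ε := ε / 2 / μ 1) (by positivity)
      have h1 := 𝒯.Lam_le_posPart μ hg (by positivity) hn
      have h2 := (abs_le.mp (𝒯.lim_close hn μ)).2
      rw [max_eq_left h.le, div_mul_cancel₀ _ h.ne'] at h1 h2
      linarith
    · rw [comp_apply]
      refine tendsto_nhds_unique (𝒯.tendsto_lim μ 1) ?_
      simp only [𝒯.Lam_one, max_eq_left h.le]
      exact tendsto_const_nhds
  · right
    refine ⟨h, ?_⟩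
    apply ContinuousLinearMap.ext
    intro g
    show 𝒯.lim μ g = 0
    have h1 : |𝒯.lim μ g| ≤ max (μ 1) 0 * ‖g‖ := le_of_tendsto (𝒯.tendsto_lim μ g).abs
      (Eventually.of_forall fun n => 𝒯.Lam_abs n μ g)
    rw [max_eq_right h, zero_mul] at h1
    exact abs_nonpos_iff.mp h1

end Tree

/-- **Every compact metrizable space admits a compensation function.** -/
theorem exists_compensationFunction (K : Type*) [TopologicalSpace K] [CompactSpace K]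
    [TopologicalSpace.MetrizableSpace K] :
    ∃ ξ : WeakDual ℝ C(K, ℝ) → WeakDual ℝ C(K, ℝ), IsCompensationFunctionOn univ ξ := by
  letI := TopologicalSpace.metrizableSpaceMetric K
  obtain ⟨𝒯⟩ := exists_tree K
  exact ⟨𝒯.comp, 𝒯.comp_continuous.continuousOn, fun μ _ => 𝒯.isCompensation μ⟩

end Q193.CF
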