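import Pool.Agent.Q193.CF.Defs

/-! # A compact space with a compensation function on the unit ball is metrizable -/

open Topology Filter Set

namespace Q193.CF

variable {K : Type*} [TopologicalSpace K] [CompactSpace K]

/-- Dirac functional. -/
noncomputable def dir (x : K) : WeakDual ℝ C(K, ℝ) :=
  StrongDual.toWeakDual (ContinuousMap.evalCLM ℝ x)

@[simp] lemma dir_apply (x : K) (g : C(K, ℝ)) : dir x g = g x := rfl

/-- `(δ_a + δ_b - δ_c) / 3`. -/
noncomputable def tri (a b c : K) : WeakDual ℝ C(K, ℝ) := (1 / 3 : ℝ) • (dir a + dir b - dir c)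

lemma tri_apply (a b c : K) (g : C(K, ℝ)) : tri a b c g = (g a + g b - g c) / 3 := by
  have : tri a b c g = (1 / 3 : ℝ) * (g a + g b - g c) := rfl
  rw [this]; ring

lemma tri_mem (a b c : K) : tri a b c ∈ unitBall K := by
  show ‖WeakDual.toStrongDual (tri a b c)‖ ≤ 1
  refine ContinuousLinearMap.opNorm_le_bound _ zero_le_one fun g => ?_
  have h1 : (WeakDual.toStrongDual (tri a b c)) g = (g a + g b - g c) / 3 := tri_apply a b c g
  rw [h1, one_mul, Real.norm_eq_abs]
  have ha := g.norm_coe_le_norm a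
  have hb := g.norm_coe_le_norm b
  have hc := g.norm_coe_le_norm c
  rw [Real.norm_eq_abs] at ha hb hc
  rw [abs_le] at ha hb hc ⊢
  constructor <;> linarith [ha.1, ha.2, hb.1, hb.2, hc.1, hc.2]

lemma tri_continuous : Continuous (fun p : K × K × K => tri p.1 p.2.1 p.2.2) := by
  refine WeakDual.continuous_of_continuous_eval fun g => ?_
  simp only [tri_apply]
  fun_prop

lemma posPart_tri_le (a b c : K) {g : C(K, ℝ)} (hg : 0 ≤ g) :
    posPart (tri a b c) g ≤ (g a + g b) / 3 := by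
  refine csSup_le ⟨_, 0, le_rfl, hg, rfl⟩ ?_
  rintro r ⟨h, h0, hle, rfl⟩
  rw [tri_apply]
  have h1 : h a ≤ g a := hle a
  have h2 : h b ≤ g b := hle b
  have h3 : 0 ≤ h c := h0 c
  linarith

section
variable {ν : WeakDual ℝ C(K, ℝ)}

/-- positive functionals -/
lemma abs_le_of_pos (hν : ∀ g : C(K, ℝ), 0 ≤ g → 0 ≤ ν g) (u : C(K, ℝ)) : |ν u| ≤ ν |u| := by
  rw [abs_le]
  constructor
  · have h : 0 ≤ ν (|u| + u) := hν _ fun x => by
      have := neg_abs_le (u x)
      show (0 : ℝ) ≤ |u x| + u x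
      linarith
    rw [map_add] at h; linarith
  · have h : 0 ≤ ν (|u| - u) := hν _ fun x => by
      have := le_abs_self (u x)
      show (0 : ℝ) ≤ |u x| - u x
      linarith
    rw [map_sub] at h; linarith

/-- A positive functional dominated by evaluations at `a` and `b` kills the functions vanishing at
both points. -/
lemma kill {a b : K} (hν : ∀ g : C(K, ℝ), 0 ≤ g → 0 ≤ ν g ∧ ν g ≤ (g a + g b) / 3)
    {u : C(K, ℝ)} (ha : u a = 0) (hb : u b = 0) : ν u = 0 := by
  have h1 := abs_le_of_pos (fun g hg => (hν g hg).1) u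
  have h2 := (hν |u| (abs_nonneg u)).2
  have h3 : |u| a = 0 := by rw [ContinuousMap.abs_apply, ha, abs_zero]
  have h4 : |u| b = 0 := by rw [ContinuousMap.abs_apply, hb, abs_zero]
  rw [h3, h4] at h2
  have : |ν u| ≤ 0 := by linarith
  exact abs_nonpos_iff.mp this

lemma eq_eval {a b : K} (hν : ∀ g : C(K, ℝ), 0 ≤ g → 0 ≤ ν g ∧ ν g ≤ (g a + g b) / 3)
    (h1 : ν 1 = 1 / 3) {g₀ : C(K, ℝ)} (hg : g₀ a ≠ g₀ b) (hg' : ν g₀ = g₀ a / 3)
    (f : C(K, ℝ)) : ν f = f a / 3 := by
  set κ : ℝ := (f b - f a) / (g₀ b - g₀ a) with hκ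
  have hne : g₀ b - g₀ a ≠ 0 := sub_ne_zero.mpr (Ne.symm hg)
  have hk := kill (ν := ν) hν (u := f - f a • (1 : C(K, ℝ)) - κ • (g₀ - g₀ a • (1 : C(K, ℝ))))
    (by simp) (by
      simp only [ContinuousMap.sub_apply, ContinuousMap.smul_apply, ContinuousMap.one_apply,
        smul_eq_mul, mul_one]
      rw [hκ]; field_simp; ring)
  rw [map_sub, map_sub, map_smul, map_smul, map_sub, map_smul, h1, hg'] at hk
  simp only [smul_eq_mul] at hk
  have : κ * (g₀ a / 3 - g₀ a * (1 / 3)) = 0 := by ring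
  rw [this] at hk
  linarith

end

section core

variable {ξ : WeakDual ℝ C(K, ℝ) → WeakDual ℝ C(K, ℝ)}

lemma xi_bound (hξ : IsCompensationFunctionOn (unitBall K) ξ) (a b c : K) (g : C(K, ℝ))
    (hg : 0 ≤ g) : 0 ≤ ξ (tri a b c) g ∧ ξ (tri a b c) g ≤ posPart (tri a b c) g := by
  rcases hξ.2 _ (tri_mem a b c) with h | h
  · exact h.2.1 g hg
  · exfalso
    have := h.1
    rw [tri_apply] at this
    simp only [ContinuousMap.one_apply] at this
    norm_num at this

lemma xi_bound' (hξ : IsCompensationFunctionOn (unitBall K) ξ) (a b c : K) (g : C(K, ℝ))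
    (hg : 0 ≤ g) : 0 ≤ ξ (tri a b c) g ∧ ξ (tri a b c) g ≤ (g a + g b) / 3 :=
  ⟨(xi_bound hξ a b c g hg).1, (xi_bound hξ a b c g hg).2.trans (posPart_tri_le a b c hg)⟩

lemma xi_one (hξ : IsCompensationFunctionOn (unitBall K) ξ) (a b c : K) :
    ξ (tri a b c) 1 = 1 / 3 := by
  rcases hξ.2 _ (tri_mem a b c) with h | h
  · rw [h.2.2, tri_apply]
    simp only [ContinuousMap.one_apply]
    norm_num
  · exfalso
    have := h.1
    rw [tri_apply] at this
    simp only [ContinuousMap.one_apply] at this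
    norm_num at this

/-- if `c = b` then the compensation is `δ_a / 3`. -/
lemma xi_right (hξ : IsCompensationFunctionOn (unitBall K) ξ) (a b : K) (f : C(K, ℝ)) :
    ξ (tri a b b) f = f a / 3 := by
  have hb : ∀ g : C(K, ℝ), 0 ≤ g → 0 ≤ ξ (tri a b b) g ∧ ξ (tri a b b) g ≤ g a / 3 := by
    intro g hg
    refine ⟨(xi_bound hξ a b b g hg).1, (xi_bound hξ a b b g hg).2.trans ?_⟩
    refine csSup_le ⟨_, 0, le_rfl, hg, rfl⟩ ?_
    rintro r ⟨h, h0, hle, rfl⟩
    rw [tri_apply]
    have h1 : h a ≤ g a := hle a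
    linarith
  have hk : ξ (tri a b b) (f - f a • (1 : C(K, ℝ))) = 0 := by
    have h1 := abs_le_of_pos (fun g hg => (hb g hg).1) (f - f a • (1 : C(K, ℝ)))
    have h2 := (hb |f - f a • (1 : C(K, ℝ))| (abs_nonneg _)).2
    have h3 : |f - f a • (1 : C(K, ℝ))| a = 0 := by
      rw [ContinuousMap.abs_apply]; simp
    rw [h3] at h2
    have : |ξ (tri a b b) (f - f a • (1 : C(K, ℝ)))| ≤ 0 := by linarith
    exact abs_nonpos_iff.mp this
  rw [map_sub, map_smul, xi_one hξ, smul_eq_mul] at hk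
  linarith

lemma tri_comm (a b c : K) : tri a b c = tri b a c := by
  unfold tri; rw [add_comm]

/-- if `c = a` then the compensation is `δ_b / 3`. -/
lemma xi_left (hξ : IsCompensationFunctionOn (unitBall K) ξ) (a b : K) (f : C(K, ℝ)) :
    ξ (tri a b a) f = f b / 3 := by
  rw [tri_comm]; exact xi_right hξ b a f

lemma xi_continuous (hξ : IsCompensationFunctionOn (unitBall K) ξ) (f : C(K, ℝ)) :
    Continuous (fun p : K × K × K => ξ (tri p.1 p.2.1 p.2.2) f) := by
  have h1 : Continuous (fun p : K × K × K => ξ (tri p.1 p.2.1 p.2.2)) :=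
    hξ.1.comp_continuous tri_continuous (fun p => tri_mem _ _ _)
  exact (WeakDual.eval_continuous f).comp h1

lemma cont_mid (hξ : IsCompensationFunctionOn (unitBall K) ξ) (a c : K) (g : C(K, ℝ)) :
    Continuous fun b : K => ξ (tri a b c) g := by
  have h : Continuous fun b : K => ((a, b, c) : K × K × K) := by fun_prop
  have h2 := (xi_continuous hξ g).comp h
  exact h2

lemma cont_right (hξ : IsCompensationFunctionOn (unitBall K) ξ) (a b : K) (g : C(K, ℝ)) :
    Continuous fun c : K => ξ (tri a b c) g := by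
  have h : Continuous fun c : K => ((a, b, c) : K × K × K) := by fun_prop
  have h2 := (xi_continuous hξ g).comp h
  exact h2

lemma cont_left (hξ : IsCompensationFunctionOn (unitBall K) ξ) (b c : K) (g : C(K, ℝ)) :
    Continuous fun a : K => ξ (tri a b c) g := by
  have h : Continuous fun a : K => ((a, b, c) : K × K × K) := by fun_prop
  have h2 := (xi_continuous hξ g).comp h
  exact h2

/-- The function `b ↦ ξ((δ_a + δ_b - δ_c)/3)(g)`. -/
noncomputable def opA (ξ : WeakDual ℝ C(K, ℝ) → WeakDual ℝ C(K, ℝ))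
    (hξ : IsCompensationFunctionOn (unitBall K) ξ) (a c : K) (g : C(K, ℝ)) : C(K, ℝ) where
  toFun := fun b => ξ (tri a b c) g
  continuous_toFun := cont_mid hξ a c g

end core

/-! ### Closing off -/

/-- Basic open sets given by finitely many rational conditions. -/
def W (F : Set (C(K, ℝ) × ℚ × ℚ)) : Set K :=
  {x | ∀ p ∈ F, (p.2.1 : ℝ) < p.1 x ∧ p.1 x < (p.2.2 : ℝ)}

/-- Finite sets of conditions on functions from `H`. -/
def Fin' (H : Set C(K, ℝ)) : Set (Set (C(K, ℝ) × ℚ × ℚ)) :=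
  {F | F.Finite ∧ F ⊆ H ×ˢ univ}

lemma countable_Fin' {H : Set C(K, ℝ)} (hH : H.Countable) : (Fin' H).Countable :=
  Set.countable_ofPred_finite_subset (hH.prod countable_univ)

variable [T2Space K]

lemma exists_sep {x y : K} (h : x ≠ y) : ∃ f : C(K, ℝ), f x ≠ f y := by
  obtain ⟨f, hf0, hf1, -⟩ := exists_continuous_zero_one_of_isClosed (X := K)
    (isClosed_singleton (x := x)) (isClosed_singleton (x := y))
    (by simpa using h)
  refine ⟨f, ?_⟩
  rw [hf0 rfl, hf1 rfl]
  simp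

/-- one step of the closing off. -/
lemma closing (A : K → K → C(K, ℝ) → C(K, ℝ)) :
    ∃ (D : Set K) (H : Set C(K, ℝ)), H.Countable ∧
      (∀ F ∈ Fin' H, (W F).Nonempty → ∃ d ∈ D, d ∈ W F) ∧
      (∀ F ∈ Fin' H, ∀ u ∈ W F, ∀ v ∈ W F, u ≠ v → ∃ h ∈ H, ∃ u' ∈ W F, ∃ v' ∈ W F, h u' ≠ h v') ∧
      (∀ a ∈ D, ∀ c ∈ D, ∀ g ∈ H, A a c g ∈ H) := by
  classical
  -- choice functions
  have hpt : ∀ F : Set (C(K, ℝ) × ℚ × ℚ), ∃ s : Set K, s.Countable ∧
      ((W F).Nonempty → ∃ d ∈ s, d ∈ W F) := by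
    intro F
    by_cases h : (W F).Nonempty
    · obtain ⟨d, hd⟩ := h
      exact ⟨{d}, countable_singleton d, fun _ => ⟨d, rfl, hd⟩⟩
    · exact ⟨∅, countable_empty, fun h' => absurd h' h⟩
  have hsp : ∀ F : Set (C(K, ℝ) × ℚ × ℚ), ∃ s : C(K, ℝ),
      (∀ u ∈ W F, ∀ v ∈ W F, u ≠ v → ∃ u' ∈ W F, ∃ v' ∈ W F, s u' ≠ s v') := by
    intro F
    by_cases h : ∃ u ∈ W F, ∃ v ∈ W F, u ≠ v
    · obtain ⟨u, hu, v, hv, huv⟩ := h
      obtain ⟨f, hf⟩ := exists_sep huv
      exact ⟨f, fun _ _ _ _ _ => ⟨u, hu, v, hv, hf⟩⟩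
    · refine ⟨0, fun u hu v hv huv => absurd ⟨u, hu, v, hv, huv⟩ h⟩
  choose pt hptc hpt' using hpt
  choose sp hsp' using hsp
  let step : (Set K × Set C(K, ℝ)) → (Set K × Set C(K, ℝ)) := fun p =>
    (p.1 ∪ ⋃ F ∈ Fin' p.2, pt F,
      (p.2 ∪ sp '' (Fin' p.2)) ∪ ⋃ a ∈ p.1, ⋃ c ∈ p.1, (A a c) '' p.2)
  let seq : ℕ → (Set K × Set C(K, ℝ)) := fun n => step^[n] (∅, ∅)
  have hseq : ∀ n, seq (n + 1) = step (seq n) := fun n => Function.iterate_succ_apply' _ _ _
  have hcount : ∀ n, (seq n).1.Countable ∧ (seq n).2.Countable := by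
    intro n
    induction n with
    | zero => exact ⟨countable_empty, countable_empty⟩
    | succ n ih =>
      rw [hseq]
      have hF := countable_Fin' ih.2
      refine ⟨ih.1.union (hF.biUnion fun F _ => hptc F), (ih.2.union (hF.image _)).union ?_⟩
      exact ih.1.biUnion fun a _ => ih.1.biUnion fun c _ => ih.2.image _
  have hm1 : Monotone (fun n => (seq n).1) := by
    refine monotone_nat_of_le_succ fun n => ?_
    show (seq n).1 ⊆ (seq (n + 1)).1
    rw [hseq]; exact subset_union_left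
  have hm2 : Monotone (fun n => (seq n).2) := by
    refine monotone_nat_of_le_succ fun n => ?_
    show (seq n).2 ⊆ (seq (n + 1)).2
    rw [hseq]; exact subset_union_left.trans subset_union_left
  have hstage : ∀ F ∈ Fin' (⋃ n, (seq n).2), ∃ n, F ∈ Fin' (seq n).2 := by
    rintro F ⟨hFf, hFs⟩
    have key : ∀ G : Set (C(K, ℝ) × ℚ × ℚ), G.Finite → G ⊆ (⋃ n, (seq n).2) ×ˢ univ →
        ∃ n, G ⊆ (seq n).2 ×ˢ univ := by
      intro G hG
      induction G, hG using Set.Finite.induction_on with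
      | empty => exact fun _ => ⟨0, empty_subset _⟩
      | @insert a s _ _ ih =>
        intro hs
        obtain ⟨n, hn⟩ := ih ((subset_insert _ _).trans hs)
        have ha := hs (mem_insert a s)
        obtain ⟨m, hm⟩ := mem_iUnion.mp ha.1
        refine ⟨max n m, ?_⟩
        rintro p (rfl | hp)
        · exact ⟨hm2 (le_max_right n m) hm, trivial⟩
        · exact ⟨hm2 (le_max_left n m) (hn hp).1, trivial⟩
    obtain ⟨n, hn⟩ := key F hFf hFs
    exact ⟨n, hFf, hn⟩
  refine ⟨⋃ n, (seq n).1, ⋃ n, (seq n).2, countable_iUnion fun n => (hcount n).2, ?_, ?_, ?_⟩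
  · intro F hF hne
    obtain ⟨n, hn⟩ := hstage F hF
    obtain ⟨d, hd, hdW⟩ := hpt' F hne
    refine ⟨d, mem_iUnion.mpr ⟨n + 1, ?_⟩, hdW⟩
    rw [hseq]
    exact Or.inr (mem_biUnion hn hd)
  · intro F hF u hu v hv huv
    obtain ⟨n, hn⟩ := hstage F hF
    obtain ⟨u', hu', v', hv', h⟩ := hsp' F u hu v hv huv
    refine ⟨sp F, mem_iUnion.mpr ⟨n + 1, ?_⟩, u', hu', v', hv', h⟩
    rw [hseq]
    exact Or.inl (Or.inr ⟨F, hn, rfl⟩)
  · intro a ha c hc g hg
    obtain ⟨i, hi⟩ := mem_iUnion.mp ha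
    obtain ⟨j, hj⟩ := mem_iUnion.mp hc
    obtain ⟨k, hk⟩ := mem_iUnion.mp hg
    set n := max i (max j k)
    have ha' : a ∈ (seq n).1 := hm1 (le_max_left _ _) hi
    have hc' : c ∈ (seq n).1 := hm1 ((le_max_left _ _).trans (le_max_right _ _)) hj
    have hg' : g ∈ (seq n).2 := hm2 ((le_max_right _ _).trans (le_max_right _ _)) hk
    refine mem_iUnion.mpr ⟨n + 1, ?_⟩
    rw [hseq]
    refine Or.inr ?_
    exact mem_biUnion ha' (mem_biUnion hc' ⟨g, hg', rfl⟩)

/-- The evaluation map into `ℝ^H`. -/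
def ev (H : Set C(K, ℝ)) (x : K) : H → ℝ := fun h => h.1 x

omit [CompactSpace K] [T2Space K] in
lemma ev_continuous (H : Set C(K, ℝ)) : Continuous (ev H) :=
  continuous_pi fun h => h.1.continuous

omit [CompactSpace K] [T2Space K] in
/-- Basic sets generate the topology of `ℝ^H`. -/
lemma basic_of_open {H : Set C(K, ℝ)} {O : Set (H → ℝ)} (hO : IsOpen O) {w : K}
    (hw : ev H w ∈ O) : ∃ F ∈ Fin' H, w ∈ W F ∧ W F ⊆ ev H ⁻¹' O := by
  classical
  obtain ⟨I, u, hu, hsub⟩ := isOpen_pi_iff.mp hO _ hw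
  have hq : ∀ i : H, ∃ r s : ℚ, i ∈ I → ((r : ℝ) < i.1 w ∧ i.1 w < (s : ℝ)) ∧
      Ioo (r : ℝ) s ⊆ u i := by
    intro i
    by_cases hi : i ∈ I
    · obtain ⟨h1, h2⟩ := hu i hi
      obtain ⟨ε, hε, hball⟩ := Metric.isOpen_iff.mp h1 _ h2
      obtain ⟨r, hr1, hr2⟩ := exists_rat_btwn (show i.1 w - ε < i.1 w by linarith)
      obtain ⟨s, hs1, hs2⟩ := exists_rat_btwn (show i.1 w < i.1 w + ε by linarith)
      refine ⟨r, s, fun _ => ⟨⟨hr2, hs1⟩, ?_⟩⟩
      intro t ht
      apply hball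
      rw [Metric.mem_ball, Real.dist_eq, abs_lt]
      have : ev H w i = i.1 w := rfl
      rw [this]
      constructor <;> linarith [ht.1, ht.2]
    · exact ⟨0, 0, fun h => absurd h hi⟩
  choose r s hrs using hq
  refine ⟨(fun i : H => ((i.1, r i, s i) : C(K, ℝ) × ℚ × ℚ)) '' (I : Set H),
    ⟨I.finite_toSet.image _, ?_⟩, ?_, ?_⟩
  · rintro p ⟨i, hi, rfl⟩
    exact ⟨i.2, trivial⟩
  · rintro p ⟨i, hi, rfl⟩
    exact (hrs i hi).1
  · intro x hx
    apply hsub
    intro i hi
    exact (hrs i hi).2 (hx _ ⟨i, hi, rfl⟩)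

/-- **A compact space with a compensation function on the unit ball is metrizable.** -/
theorem metrizable_of_ball {ξ : WeakDual ℝ C(K, ℝ) → WeakDual ℝ C(K, ℝ)}
    (hξ : IsCompensationFunctionOn (unitBall K) ξ) : TopologicalSpace.MetrizableSpace K := by
  classical
  obtain ⟨D, H, hHc, hC1, hC2, hC3⟩ := closing (opA ξ hξ)
  have hinj : Function.Injective (ev H) := by
    intro x x' hxx
    by_contra hne
    by_cases hiso : ∃ F ∈ Fin' H, x ∈ W F ∧ ∀ w ∈ W F, ev H w = ev H x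
    · obtain ⟨F, hF, hxF, hFw⟩ := hiso
      have hx' : x' ∈ W F := by
        intro p hp
        have hpH : p.1 ∈ H := (hF.2 hp).1
        have : p.1 x' = p.1 x := (congrFun hxx ⟨p.1, hpH⟩).symm
        rw [this]; exact hxF p hp
      obtain ⟨h, hh, u, hu, v, hv, huv⟩ := hC2 F hF x hxF x' hx' hne
      apply huv
      have h1 := congrFun (hFw u hu) ⟨h, hh⟩
      have h2 := congrFun (hFw v hv) ⟨h, hh⟩
      exact h1.trans h2.symm
    · push Not at hiso
      -- `ev x` is in the closure of the other values on `D`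
      set S : Set K := {a | a ∈ D ∧ ev H a ≠ ev H x} with hS
      have hcl : ∀ O : Set (H → ℝ), IsOpen O → ev H x ∈ O → ∃ a ∈ S, ev H a ∈ O := by
        intro O hO hxO
        obtain ⟨F, hF, hxF, hFO⟩ := basic_of_open hO hxO
        obtain ⟨w, hw, hwne⟩ := hiso F hF hxF
        have hO' : IsOpen (O ∩ {ev H x}ᶜ) := hO.inter isOpen_compl_singleton
        obtain ⟨F', hF', hwF', hF'O⟩ := basic_of_open hO' (w := w) ⟨hFO hw, hwne⟩
        obtain ⟨d, hd, hdW⟩ := hC1 F' hF' ⟨w, hwF'⟩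
        exact ⟨d, ⟨hd, (hF'O hdW).2⟩, (hF'O hdW).1⟩
      have hne' : (comap (ev H) (𝓝 (ev H x)) ⊓ 𝓟 S).NeBot := by
        rw [inf_principal_neBot_iff]
        rintro U ⟨V, hV, hVU⟩
        obtain ⟨O, hOV, hO, hxO⟩ := mem_nhds_iff.mp hV
        obtain ⟨a, haS, haO⟩ := hcl O hO hxO
        exact ⟨a, hVU (hOV haO), haS⟩
      obtain ⟨y, hy⟩ := exists_clusterPt_of_compactSpace
        (comap (ev H) (𝓝 (ev H x)) ⊓ 𝓟 S)
      have hyx : ev H y = ev H x := by
        have h1 : ClusterPt y (comap (ev H) (𝓝 (ev H x))) := hy.mono inf_le_left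
        have h2 : (map (ev H) (𝓝 y ⊓ comap (ev H) (𝓝 (ev H x)))).NeBot :=
          Filter.NeBot.map h1 _
        have h3 : map (ev H) (𝓝 y ⊓ comap (ev H) (𝓝 (ev H x))) ≤
            𝓝 (ev H y) ⊓ 𝓝 (ev H x) := by
          refine le_inf ?_ ?_
          · exact (map_mono inf_le_left).trans (ev_continuous H).continuousAt
          · exact (map_mono inf_le_right).trans map_comap_le
        have := h2.mono h3
        exact eq_of_nhds_neBot this
      have hyS : y ∈ closure S := by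
        rw [mem_closure_iff_clusterPt]
        exact hy.mono inf_le_right
      -- choose a point of the fibre different from `y`
      obtain ⟨x₀, hx₀y, hx₀⟩ : ∃ x₀ : K, x₀ ≠ y ∧ ev H x₀ = ev H x := by
        by_cases hxy : x = y
        · exact ⟨x', fun h => hne (hxy.trans h.symm), hxx.symm⟩
        · exact ⟨x, hxy, rfl⟩
      have hev0 : ∀ g ∈ H, g x₀ = g y := fun g hg =>
        congrFun (hx₀.trans hyx.symm) ⟨g, hg⟩
      have hyD : y ∈ closure D := closure_mono (fun a ha => ha.1) hyS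
      -- first step: `c → y`
      have hstep1 : ∀ a ∈ D, ∀ g ∈ H, ξ (tri a x₀ y) g = g a / 3 := by
        intro a ha g hg
        have hall : ∀ c ∈ D, ξ (tri a x₀ c) g = ξ (tri a y c) g := fun c hc =>
          hev0 _ (hC3 a ha c hc g hg)
        have hcont1 := cont_right hξ a x₀ g
        have hcont2 := cont_right hξ a y g
        have hcl : closure D ⊆ {c | ξ (tri a x₀ c) g = ξ (tri a y c) g} :=
          closure_minimal hall (isClosed_eq hcont1 hcont2)
        have := hcl hyD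
        rw [mem_setOf_eq] at this
        rw [this]; exact xi_right hξ a y g
      -- second step: all functions
      have hstep2 : ∀ a ∈ S, ∀ f : C(K, ℝ), ξ (tri a x₀ y) f = f a / 3 := by
        rintro a ⟨haD, hane⟩ f
        obtain ⟨⟨g, hg⟩, hga⟩ := Function.ne_iff.mp hane
        have hgne : g a ≠ g x₀ := by
          intro h
          apply hga
          show g a = g x
          rw [h]; exact congrFun hx₀ ⟨g, hg⟩
        exact eq_eval (fun u hu => xi_bound' hξ a x₀ y u hu) (xi_one hξ _ _ _) hgne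
          (hstep1 a haD g hg) f
      -- third step: `a → y`
      have hstep3 : ∀ f : C(K, ℝ), ξ (tri y x₀ y) f = f y / 3 := by
        intro f
        have hcont1 := cont_left hξ x₀ y f
        have hcl : closure S ⊆ {a | ξ (tri a x₀ y) f = f a / 3} :=
          closure_minimal (fun a ha => hstep2 a ha f)
            (isClosed_eq hcont1 (by fun_prop))
        exact hcl hyS
      obtain ⟨f, hf⟩ := exists_sep hx₀y
      apply hf
      have h1 := hstep3 f
      rw [xi_left hξ y x₀ f] at h1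
      linarith
  haveI : Countable H := hHc.to_subtype
  haveI : TopologicalSpace.MetrizableSpace (H → ℝ) :=
    TopologicalSpace.metrizableSpace_of_t3_secondCountable _
  exact ((ev_continuous H).isClosedEmbedding hinj).isEmbedding.metrizableSpace

end Q193.CF
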