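import Pool.Agent.Q193.CF.Defs

/-! # A compact metrizable space admits a compensation function: the tree of partitions of unity -/

open Topology Filter Set

namespace Q193.CF

/-! ### Iterated sums over words -/

section words
variable {ι : Type*} {E : Type*} [AddCommMonoid E]

/-- Sum over the words of length `n` (letters are added at the head, the `k`-th letter ranges over
`T k`). -/
def Sm (T : ℕ → Finset ι) : ℕ → (List ι → E) → E
  | 0, F => F []
  | n + 1, F => Sm T n (fun σ => ∑ x ∈ T n, F (x :: σ))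

lemma Sm_congr (T : ℕ → Finset ι) (n : ℕ) (F G : List ι → E)
    (h : ∀ σ : List ι, σ.length = n → F σ = G σ) : Sm T n F = Sm T n G := by
  induction n generalizing F G with
  | zero => exact h [] rfl
  | succ n ih =>
    refine ih _ _ fun σ hσ => Finset.sum_congr rfl fun x _ => h _ (by simp [hσ])

lemma Sm_map {E' : Type*} [AddCommMonoid E'] (f : E →+ E') (T : ℕ → Finset ι) (n : ℕ)
    (F : List ι → E) : f (Sm T n F) = Sm T n (fun σ => f (F σ)) := by
  induction n generalizing F with
  | zero => rfl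
  | succ n ih =>
    show f (Sm T n _) = Sm T n _
    rw [ih]
    refine Sm_congr T n _ _ fun σ _ => ?_
    rw [map_sum]

lemma Sm_add (T : ℕ → Finset ι) (n : ℕ) (F G : List ι → E) :
    Sm T n (fun σ => F σ + G σ) = Sm T n F + Sm T n G := by
  induction n generalizing F G with
  | zero => rfl
  | succ n ih =>
    show Sm T n _ = Sm T n _ + Sm T n _
    rw [← ih]
    refine Sm_congr T n _ _ fun σ _ => ?_
    rw [Finset.sum_add_distrib]

end words

section real
variable {ι : Type*}

lemma Sm_le (T : ℕ → Finset ι) (n : ℕ) (F G : List ι → ℝ)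
    (h : ∀ σ : List ι, σ.length = n → F σ ≤ G σ) : Sm T n F ≤ Sm T n G := by
  induction n generalizing F G with
  | zero => exact h [] rfl
  | succ n ih =>
    refine ih _ _ fun σ hσ => Finset.sum_le_sum fun x _ => h _ (by simp [hσ])

lemma Sm_const_mul (T : ℕ → Finset ι) (n : ℕ) (c : ℝ) (F : List ι → ℝ) :
    Sm T n (fun σ => c * F σ) = c * Sm T n F := by
  have := Sm_map (AddMonoidHom.mulLeft c) T n F
  simpa using this.symm

lemma Sm_zero' (T : ℕ → Finset ι) (n : ℕ) : Sm T n (fun _ => (0 : ℝ)) = 0 := by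
  have := Sm_const_mul T n 0 (fun _ => (0 : ℝ))
  simpa using this

lemma Sm_sub (T : ℕ → Finset ι) (n : ℕ) (F G : List ι → ℝ) :
    Sm T n (fun σ => F σ - G σ) = Sm T n F - Sm T n G := by
  have h1 := Sm_add T n F (fun σ => (-1) * G σ)
  rw [Sm_const_mul] at h1
  have h2 : Sm T n (fun σ => F σ - G σ) = Sm T n (fun σ => F σ + (-1) * G σ) :=
    Sm_congr T n _ _ fun σ _ => by ring
  rw [h2, h1]; ring

lemma Sm_abs_le (T : ℕ → Finset ι) (n : ℕ) (F G : List ι → ℝ)
    (h : ∀ σ : List ι, σ.length = n → |F σ| ≤ G σ) : |Sm T n F| ≤ Sm T n G := by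
  rw [abs_le]
  constructor
  · have h1 : Sm T n (fun σ => (-1) * G σ) ≤ Sm T n F :=
      Sm_le T n _ _ fun σ hσ => by
        have := (abs_le.mp (h σ hσ)).1
        linarith
    rw [Sm_const_mul] at h1
    linarith
  · exact Sm_le T n _ _ fun σ hσ => (abs_le.mp (h σ hσ)).2

end real

/-! ### Partitions of unity -/

section pou
variable {K : Type*} [MetricSpace K] [CompactSpace K]

lemma pou {δ : ℝ} (hδ : 0 < δ) : ∃ (T : Finset K) (q : K → C(K, ℝ)), (∀ x t, 0 ≤ q x t) ∧
    (∀ t, ∑ x ∈ T, q x t = 1) ∧ ∀ x s t, q x s ≠ 0 → q x t ≠ 0 → dist s t ≤ δ := by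
  obtain ⟨T, hT⟩ := isCompact_univ.elim_nhds_subcover (fun x : K => Metric.ball x (δ / 2))
    (fun x _ => Metric.ball_mem_nhds x (by linarith))
  let r : K → C(K, ℝ) := fun x => ⟨fun t => max (δ / 2 - dist t x) 0, by fun_prop⟩
  have hr : ∀ x t, r x t = max (δ / 2 - dist t x) 0 := fun _ _ => rfl
  have hr0 : ∀ x t, 0 ≤ r x t := fun x t => le_max_right _ _
  have hR : ∀ t, 0 < ∑ x ∈ T, r x t := by
    intro t
    obtain ⟨x, hxT, hx⟩ : ∃ x ∈ T, t ∈ Metric.ball x (δ / 2) := by
      have := hT.2 (mem_univ t)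
      simpa using this
    refine Finset.sum_pos' (fun x _ => hr0 x t) ⟨x, hxT, ?_⟩
    rw [hr]
    refine lt_max_of_lt_left ?_
    rw [Metric.mem_ball] at hx
    linarith
  refine ⟨T, fun x => ⟨fun t => r x t / ∑ y ∈ T, r y t, ?_⟩, ?_, ?_, ?_⟩
  · exact (r x).continuous.div (by fun_prop) (fun t => (hR t).ne')
  · intro x t
    exact div_nonneg (hr0 x t) (hR t).le
  · intro t
    show ∑ x ∈ T, r x t / ∑ y ∈ T, r y t = 1
    rw [← Finset.sum_div]
    exact div_self (hR t).ne'
  · intro x s t hs ht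
    have key : ∀ u, r x u / ∑ y ∈ T, r y u ≠ 0 → dist u x ≤ δ / 2 := by
      intro u hu
      by_contra hcon
      apply hu
      have : r x u = 0 := by
        rw [hr]; exact max_eq_right (by linarith [not_le.mp hcon])
      rw [this, zero_div]
    have h1 := key s hs
    have h2 := key t ht
    have h3 := dist_triangle_right s t x
    linarith

end pou

end Q193.CF
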